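import Mathlib

set_option autoImplicit false

namespace Pool.Agent.Results.MP_199736_pr.FieldCounterexample

/-- `P t` (`t ≥ 0`) are the transition kernels of a continuous-time Markov chain on the finite
set `Ω`: stochastic matrices with `P 0 = 1`, the Chapman–Kolmogorov equations and continuity. -/
structure IsMarkovChain {Ω : Type} [Fintype Ω] [DecidableEq Ω] (P : ℝ → Matrix Ω Ω ℝ) : Prop where
  nonneg : ∀ t, 0 ≤ t → ∀ x y, 0 ≤ P t x y
  sum_one : ∀ t, 0 ≤ t → ∀ x, ∑ y, P t x y = 1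
  zero : P 0 = 1
  add : ∀ s t, 0 ≤ s → 0 ≤ t → P (s + t) = P s * P t
  cont : ∀ x y, Continuous fun t => P t x y

/-- Monotone: `P t x A ≤ P t y A` for `x ≤ y`, every increasing set `A` and every `t ≥ 0`. -/
def IsMonotoneChain {Ω : Type} [Fintype Ω] [PartialOrder Ω] (P : ℝ → Matrix Ω Ω ℝ) : Prop :=
  ∀ t, 0 ≤ t → ∀ x y : Ω, x ≤ y → ∀ A : Finset Ω, IsUpperSet (A : Set Ω) →
    ∑ z ∈ A, P t x z ≤ ∑ z ∈ A, P t y z

/-- Reversible with respect to a (strictly positive) probability `π`. -/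
def IsReversibleChain {Ω : Type} [Fintype Ω] (P : ℝ → Matrix Ω Ω ℝ) : Prop :=
  ∃ π : Ω → ℝ, (∀ x, 0 < π x) ∧ ∑ x, π x = 1 ∧ ∀ t, 0 ≤ t → ∀ x y, π x * P t x y = π y * P t y x

/-- Total variation distance: `max_A |μ(A) - ν(A)|`. -/
noncomputable def tv {Ω : Type} [Fintype Ω] (μ ν : Ω → ℝ) : ℝ :=
  ⨆ A : Finset Ω, |∑ z ∈ A, μ z - ∑ z ∈ A, ν z|

/-- The stationary law of one spin in a field: mass `3/4` on `b`, mass `1/4` on the other value. -/
noncomputable def w (b u : Bool) : ℝ := if u = b then 3 / 4 else 1 / 4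

/-- Rate-1 resampling of one spin from `w b`. -/
noncomputable def K (b : Bool) (p : ℝ) (u v : Bool) : ℝ := (if u = v then p else 0) + (1 - p) * w b v

/-- Two independent spins in opposite fields (Glauber dynamics of the Ising model on two isolated
vertices with external fields of opposite signs). -/
noncomputable def Q (p : ℝ) : Matrix (Bool × Bool) (Bool × Bool) ℝ :=
  fun x y => K true p x.1 y.1 * K false p x.2 y.2

lemma w_pos (b u : Bool) : 0 < w b u := by unfold w; split_ifs <;> norm_num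

lemma K_nonneg (b : Bool) {p : ℝ} (h0 : 0 ≤ p) (h1 : p ≤ 1) (u v : Bool) : 0 ≤ K b p u v := by
  unfold K
  have := (w_pos b v).le
  have h2 : 0 ≤ 1 - p := by linarith
  split_ifs <;> positivity

lemma Q_sum (p : ℝ) (x : Bool × Bool) : ∑ y, Q p x y = 1 := by
  obtain ⟨x1, x2⟩ := x
  rw [Fintype.sum_prod_type]
  cases x1 <;> cases x2 <;> simp [Q, K, w] <;> ring

lemma Q_one : Q 1 = 1 := by
  ext x y
  obtain ⟨x1, x2⟩ := x
  obtain ⟨y1, y2⟩ := y
  cases x1 <;> cases x2 <;> cases y1 <;> cases y2 <;> simp [Q, K, w]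

lemma Q_mul (p q : ℝ) : Q (p * q) = Q p * Q q := by
  ext x y
  rw [Matrix.mul_apply, Fintype.sum_prod_type]
  obtain ⟨x1, x2⟩ := x
  obtain ⟨y1, y2⟩ := y
  cases x1 <;> cases x2 <;> cases y1 <;> cases y2 <;> simp [Q, K, w] <;> ring

/-- Monotonicity tested against monotone functions. -/
lemma Q_mono {p : ℝ} (h0 : 0 ≤ p) (h1 : p ≤ 1) (g : Bool × Bool → ℝ) (hg : Monotone g)
    {x y : Bool × Bool} (hxy : x ≤ y) : ∑ z, Q p x z * g z ≤ ∑ z, Q p y z * g z := by
  have e : ∀ x : Bool × Bool, ∑ z, Q p x z * g z = p * p * g x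
      + p * (1 - p) * (1 / 4 * g (x.1, true) + 3 / 4 * g (x.1, false))
      + p * (1 - p) * (3 / 4 * g (true, x.2) + 1 / 4 * g (false, x.2))
      + (1 - p) * (1 - p) * (3 / 4 * (1 / 4 * g (true, true) + 3 / 4 * g (true, false))
        + 1 / 4 * (1 / 4 * g (false, true) + 3 / 4 * g (false, false))) := by
    rintro ⟨x1, x2⟩
    rw [Fintype.sum_prod_type]
    cases x1 <;> cases x2 <;> simp [Q, K, w] <;> ring
  rw [e x, e y]
  have h2 : 0 ≤ 1 - p := by linarith
  have a1 := hg hxy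
  have a2 : g (x.1, true) ≤ g (y.1, true) := hg ⟨hxy.1, le_rfl⟩
  have a3 : g (x.1, false) ≤ g (y.1, false) := hg ⟨hxy.1, le_rfl⟩
  have a4 : g (true, x.2) ≤ g (true, y.2) := hg ⟨le_rfl, hxy.2⟩
  have a5 : g (false, x.2) ≤ g (false, y.2) := hg ⟨le_rfl, hxy.2⟩
  gcongr

lemma Q_upper {p : ℝ} (h0 : 0 ≤ p) (h1 : p ≤ 1) {x y : Bool × Bool} (hxy : x ≤ y)
    (A : Finset (Bool × Bool)) (hA : IsUpperSet (A : Set (Bool × Bool))) :
    ∑ z ∈ A, Q p x z ≤ ∑ z ∈ A, Q p y z := by
  classical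
  have hg : Monotone (fun z : Bool × Bool => if z ∈ A then (1:ℝ) else 0) := by
    intro a b hab
    show (if a ∈ A then (1:ℝ) else 0) ≤ if b ∈ A then (1:ℝ) else 0
    by_cases ha : a ∈ A
    · have hb : b ∈ A := hA hab ha
      simp [ha, hb]
    · rw [if_neg ha]
      split_ifs <;> norm_num
  have h := Q_mono h0 h1 _ hg hxy
  simpa [Finset.sum_ite_mem] using h

lemma Q_rev (p : ℝ) (x y : Bool × Bool) :
    (w true x.1 * w false x.2) * Q p x y = (w true y.1 * w false y.2) * Q p y x := by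
  obtain ⟨x1, x2⟩ := x
  obtain ⟨y1, y2⟩ := y
  cases x1 <;> cases x2 <;> cases y1 <;> cases y2 <;> simp [Q, K, w] <;> ring

lemma tv_top_bot {p : ℝ} (h0 : 0 ≤ p) :
    tv (Q p (⊤ : Bool × Bool)) (Q p (⊥ : Bool × Bool)) ≤ p := by
  classical
  unfold tv
  refine ciSup_le fun A => ?_
  have hD : ∀ z : Bool × Bool, Q p (⊤ : Bool × Bool) z - Q p (⊥ : Bool × Bool) z
      = (if z = (true, true) then p else 0) - (if z = (false, false) then p else 0) := by
    rintro ⟨z1, z2⟩
    have ht : (⊤ : Bool × Bool) = (true, true) := rfl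
    have hb : (⊥ : Bool × Bool) = (false, false) := rfl
    rw [ht, hb]
    cases z1 <;> cases z2 <;> simp [Q, K, w] <;> ring
  rw [← Finset.sum_sub_distrib, Finset.sum_congr rfl (fun z _ => hD z), Finset.sum_sub_distrib,
    Finset.sum_ite_eq', Finset.sum_ite_eq', abs_le]
  constructor <;> split_ifs <;> linarith

lemma tv_cross {p : ℝ} :
    p * (1 + (1 - p) / 2) ≤ tv (Q p (true, false)) (Q p (false, true)) := by
  classical
  have hbdd : BddAbove (Set.range fun A : Finset (Bool × Bool) =>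
      |∑ z ∈ A, Q p (true, false) z - ∑ z ∈ A, Q p (false, true) z|) :=
    Set.Finite.bddAbove (Set.finite_range _)
  refine le_trans ?_ (le_ciSup hbdd {(true, false)})
  refine le_trans ?_ (le_abs_self _)
  simp [Q, K, w]
  nlinarith

/-- **Disproof of Q2.**  On the four-element Boolean lattice `Bool × Bool` there is a monotone
reversible Markov chain such that for EVERY time `t > 0` the total variation distance between the
laws started from the incomparable states `(true, false)` and `(false, true)` is strictly larger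
than the one between the laws started from the maximal and from the minimal state.  The kernel
`P 1` gives the same for a discrete-time chain, at every time `n ≥ 1`. -/
theorem result : ∃ P : ℝ → Matrix (Bool × Bool) (Bool × Bool) ℝ,
    IsMarkovChain P ∧ IsMonotoneChain P ∧ IsReversibleChain P ∧
    (∀ t, 0 < t → tv (P t ⊤) (P t ⊥) < tv (P t (true, false)) (P t (false, true))) ∧
    (∀ n : ℕ, P 1 ^ n = P n) ∧
    (∀ n : ℕ, 1 ≤ n → tv ((P 1 ^ n) ⊤) ((P 1 ^ n) ⊥) <
      tv ((P 1 ^ n) (true, false)) ((P 1 ^ n) (false, true))) := by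
  have hexp : ∀ t : ℝ, 0 ≤ t → Real.exp (-t) ≤ 1 := fun t ht => by
    rw [Real.exp_le_one_iff]; linarith
  have hlt : ∀ t : ℝ, 0 < t → tv (Q (Real.exp (-t)) ⊤) (Q (Real.exp (-t)) ⊥) <
      tv (Q (Real.exp (-t)) (true, false)) (Q (Real.exp (-t)) (false, true)) := by
    intro t ht
    have hp0 := Real.exp_pos (-t)
    have hp1 : Real.exp (-t) < 1 := by rw [Real.exp_lt_one_iff]; linarith
    refine lt_of_le_of_lt (tv_top_bot hp0.le) (lt_of_lt_of_le ?_ tv_cross)
    nlinarith
  have hpow : ∀ n : ℕ, Q (Real.exp (-1)) ^ n = Q (Real.exp (-(n:ℝ))) := by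
    intro n
    induction n with
    | zero => simp [Q_one]
    | succ n ih =>
      rw [pow_succ, ih, ← Q_mul, ← Real.exp_add]
      congr 2
      push_cast
      ring
  refine ⟨fun t => Q (Real.exp (-t)), ⟨?_, ?_, ?_, ?_, ?_⟩, ?_, ?_, hlt, hpow, ?_⟩
  · intro t ht x y
    exact mul_nonneg (K_nonneg _ (Real.exp_pos _).le (hexp t ht) _ _)
      (K_nonneg _ (Real.exp_pos _).le (hexp t ht) _ _)
  · intro t _ x
    exact Q_sum _ x
  · simp [Q_one]
  · intro s t _ _
    show Q (Real.exp (-(s + t))) = Q (Real.exp (-s)) * Q (Real.exp (-t))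
    rw [← Q_mul, ← Real.exp_add]
    congr 2
    ring
  · intro x y
    show Continuous fun t : ℝ => Q (Real.exp (-t)) x y
    unfold Q K
    split_ifs <;> fun_prop
  · intro t ht x y hxy A hA
    exact Q_upper (Real.exp_pos _).le (hexp t ht) hxy A hA
  · refine ⟨fun x => w true x.1 * w false x.2, fun x => mul_pos (w_pos _ _) (w_pos _ _), ?_,
      fun t _ x y => Q_rev _ x y⟩
    rw [Fintype.sum_prod_type]
    simp [w]
    norm_num
  · intro n hn
    show tv ((Q (Real.exp (-1)) ^ n) ⊤) ((Q (Real.exp (-1)) ^ n) ⊥) <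
      tv ((Q (Real.exp (-1)) ^ n) (true, false)) ((Q (Real.exp (-1)) ^ n) (false, true))
    rw [hpow n]
    exact hlt n (by exact_mod_cast hn)

end Pool.Agent.Results.MP_199736_pr.FieldCounterexample
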